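import Pool.Agent.H940.F.Torus

set_option autoImplicit false
set_option linter.unusedSectionVars false
set_option linter.unusedVariables false

/-! # The pair of the second torus is the pair of a singular line -/

namespace Pool.Agent.H940.F

open MvPolynomial Pool.Agent.W428.MOT Pool.Agent.TH192.MT Pool.Agent.TH192.DT Pool.Agent.Q49.CO
open Pool.Agent.Q57.QM Pool.Agent.Y229 Pool.Agent.Q57.MC Pool.Agent.Q57.MD
open Pool.Agent.W574.LM (IsLocEq)
open Pool.Agent.H940.LT (eval_homog euler_hom LTy hom_lty root_or_field dv)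
open Pool.Agent.H940.Z Pool.Agent.H940.G Pool.Agent.H940.G.LA

variable {n : ℕ}

/-- the choice of the sign -/
theorem exists_sign (d : ℕ) (hd : 3 ≤ d) (w : Fin (n + 1) → ℤ) (hw : ∑ i, w i ≠ 0) :
    ∃ (w' : Fin (n + 1) → ℤ) (i₀ : Fin (n + 1)), (w' = w ∨ w' = -w) ∧ 0 < w' i₀ ∧
      (∀ j, w' j ≤ w' i₀) ∧ ∀ j, -(((d : ℤ) - 1) * w' i₀) < w' j := by
  obtain ⟨i₀, hi₀⟩ := Finite.exists_max w
  obtain ⟨j₀, hj₀⟩ := Finite.exists_min w
  have hd' : (3 : ℤ) ≤ d := by exact_mod_cast hd
  by_cases h : 0 < w i₀ ∧ -(((d : ℤ) - 1) * w i₀) < w j₀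
  · exact ⟨w, i₀, Or.inl rfl, h.1, hi₀, fun j => lt_of_lt_of_le h.2 (hj₀ j)⟩
  · have h1 : w j₀ < 0 ∧ w i₀ < ((d : ℤ) - 1) * (-w j₀) := by
      have h2 : w j₀ ≤ w i₀ := hi₀ j₀
      rcases le_or_gt (w i₀) 0 with h3 | h3
      · have h4 : w j₀ ≠ 0 := by
          intro h5
          apply hw
          refine Finset.sum_eq_zero fun i _ => ?_
          have := hi₀ i
          have := hj₀ i
          omega
        have h5 : w j₀ < 0 := by omega
        refine ⟨h5, ?_⟩
        nlinarith
      · have h4 : w j₀ ≤ -(((d : ℤ) - 1) * w i₀) := by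
          by_contra h5
          exact h ⟨h3, by omega⟩
        constructor
        · nlinarith
        · nlinarith
    refine ⟨-w, j₀, Or.inr rfl, ?_, fun j => ?_, fun j => ?_⟩
    · simp only [Pi.neg_apply]
      omega
    · simp only [Pi.neg_apply]
      have := hj₀ j
      omega
    · simp only [Pi.neg_apply]
      have := hi₀ j
      linarith [h1.2]

/-- the roots of the germs at the points of a line -/
theorem sf_line (f : MvPolynomial (Fin (n + 1)) ℂ) (d : ℕ) (hf : f.IsHomogeneous d)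
    (i : Fin (n + 1)) (q : Fin n → ℂ) (hne : germAt i q f ≠ 0) (α : ℂ)
    (h : SF (fun _ : Fin 1 => germAt i q f) 0 α) : SF (fun _ : Fin 1 => f) 0 α := by
  classical
  have hne' : ∃ j : Fin 1, (fun _ : Fin 1 => germAt i q f) j ≠ 0 := ⟨0, hne⟩
  set p : Fin (n + 1) → ℂ := i.insertNth 1 q with hp
  have hpi : p i = 1 := by rw [hp, Fin.insertNth_apply_same]
  have hpt : ∀ t, p (i.succAbove t) = q t := by
    intro t
    rw [hp, Fin.insertNth_apply_succAbove]
  refine sf_cone_pts (T := Finset.univ) (fun _ : Fin 1 => f) d (fun _ => ?_)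
    (fun _ : Fin 1 => germAt i q f) p
    (transfer_chart (fun _ : Fin 1 => f) (fun _ : Fin 1 => germAt i q f) (an i q)
      (fun t => i.succAbove t) (X i) p ?_ (same_germ f d hf i q) ?_ ?_) ?_ hne' _
      ((sf_iff _ hne' _).1 h)
  · unfold HT
    have h1 : (fun j : Fin (n + 1) => if j ∈ (Finset.univ : Finset (Fin (n + 1))) then 1 else 0) =
        (1 : Fin (n + 1) → ℕ) := by
      funext j
      rw [if_pos (Finset.mem_univ j)]
      rfl
    rw [h1]
    exact hf
  · rw [eval_X, hpi]
    exact one_ne_zero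
  · intro t
    have h1 := aeval_an i q t p
    rw [hpt, hpi] at h1
    change aeval p (an i q t) = 0
    rw [h1]
    change q t - q t * 1 = 0
    ring
  · have h1 : (Matrix.of fun u t => eval p (pderiv (i.succAbove u) (an i q t))) =
        (1 : Matrix (Fin n) (Fin n) ℂ) := by
      ext1 u t
      rw [Matrix.of_apply, pderiv_an, Matrix.one_apply]
      split_ifs
      · rw [map_one]
      · rw [map_zero]
    rw [h1, Matrix.det_one]
    exact one_ne_zero
  · intro j hj
    exact absurd (Finset.mem_univ j) hj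

section

variable {f : MvPolynomial (Fin (n + 1)) ℂ} {d : ℕ} (hd : 3 ≤ d) (hf : f.IsHomogeneous d)
  (hf0 : f ≠ 0) (H : LH f) {A B : Matrix (Fin (n + 1)) (Fin (n + 1)) ℂ} (hAB : A * B = 1)
  (hBA : B * A = 1) {w : Fin (n + 1) → ℤ} (hg : (sb B f).IsHomogeneous d)
  (hw : ∀ α ∈ (sb B f).support, ∑ i, (α i : ℤ) * w i = 0) {i₀ : Fin (n + 1)} (h0 : 0 < w i₀)
  (hmax : ∀ j, w j ≤ w i₀) (hmin : ∀ j, -(((d : ℤ) - 1) * w i₀) < w j)
include hd hf hf0 H hAB hBA hg hw h0 hmax hmin

/-- the points with maximal weight are critical -/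
theorem crit_max (y : Fin (n + 1) → ℂ) (hy : ∀ j, w j ≠ w i₀ → y j = 0) : Sg (sb B f) y := by
  classical
  intro j
  rw [eval_eq']
  refine Finset.sum_eq_zero fun β hβ => ?_
  have h1 : β + Finsupp.single j 1 ∈ (sb B f).support := by
    rw [mem_support_iff]
    intro h2
    apply mem_support_iff.1 hβ
    rw [coeff_pderiv, h2, zero_mul]
  have h2 := hw _ h1
  have h3 := hg (mem_support_iff.1 h1)
  rw [Finsupp.weight_apply, Finsupp.sum_fintype _ _ (by simp)] at h3
  simp only [Pi.one_apply, smul_eq_mul, mul_one] at h3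
  by_contra hc
  have h4 : ∀ l, β l ≠ 0 → w l = w i₀ := by
    intro l hl
    by_contra h5
    apply hc
    have h6 : ∏ i, y i ^ β i = 0 := Finset.prod_eq_zero (Finset.mem_univ l) (by
      rw [hy l h5, zero_pow hl])
    rw [h6, mul_zero]
  have h5 : ∑ l, ((β l : ℕ) : ℤ) * w l = (∑ l, ((β l : ℕ) : ℤ)) * w i₀ := by
    rw [Finset.sum_mul]
    refine Finset.sum_congr rfl fun l _ => ?_
    by_cases hl : β l = 0
    · rw [hl, Nat.cast_zero, zero_mul, zero_mul]
    · rw [h4 l hl]
  have h6 : ∑ i, (((β + Finsupp.single j 1 : Fin (n + 1) →₀ ℕ) i : ℕ) : ℤ) * w i =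
      ∑ l, ((β l : ℕ) : ℤ) * w l + w j := by
    have h7 : ∀ i, (((β + Finsupp.single j 1 : Fin (n + 1) →₀ ℕ) i : ℕ) : ℤ) * w i =
        (β i : ℤ) * w i + if i = j then w j else 0 := by
      intro i
      rw [Finsupp.add_apply, Finsupp.single_apply]
      by_cases h8 : i = j
      · subst h8
        rw [if_pos rfl, if_pos rfl]
        push_cast
        ring
      · rw [if_neg (Ne.symm h8), if_neg h8, add_zero, add_zero]
    rw [Finset.sum_congr rfl fun i _ => h7 i, Finset.sum_add_distrib, Finset.sum_ite_eq',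
      if_pos (Finset.mem_univ j)]
  have h7 : (∑ l, ((β l : ℕ) : ℤ)) + 1 = d := by
    have h8 : ∀ i, (β + Finsupp.single j 1 : Fin (n + 1) →₀ ℕ) i =
        β i + if i = j then 1 else 0 := by
      intro i
      rw [Finsupp.add_apply, Finsupp.single_apply]
      by_cases h8 : i = j
      · rw [if_pos h8.symm, if_pos h8]
      · rw [if_neg (Ne.symm h8), if_neg h8]
    rw [Finset.sum_congr rfl fun i _ => h8 i, Finset.sum_add_distrib, Finset.sum_ite_eq',
      if_pos (Finset.mem_univ j)] at h3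
    exact_mod_cast h3
  rw [h6, h5] at h2
  have h8 : (∑ l, ((β l : ℕ) : ℤ)) = d - 1 := by omega
  rw [h8] at h2
  have := hmin j
  omega

theorem inj_mulVec {x y : Fin (n + 1) → ℂ} (h : B.mulVec x = B.mulVec y) : x = y := by
  have h1 := congrArg A.mulVec h
  rwa [Matrix.mulVec_mulVec, Matrix.mulVec_mulVec, hAB, Matrix.one_mulVec, Matrix.one_mulVec] at h1

/-- only finitely many lines -/
theorem lines_g (u : ℕ → Fin (n + 1) → ℂ) (hu : ∀ k, u k i₀ = 1)
    (hs : ∀ k, Sg (sb B f) (u k)) : ∃ k l, k ≠ l ∧ u k = u l := by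
  have hinj := @inj_mulVec n f d hd hf hf0 H A B hAB hBA w hg hw i₀ h0 hmax hmin
  obtain ⟨k, l, hkl, c, hc⟩ := lines_inj (by omega) hf hf0 H (fun k => B.mulVec (u k)) (fun k h => by
    have h1 : u k = 0 := hinj (by rw [h, Matrix.mulVec_zero])
    have h2 := hu k
    rw [h1] at h2
    exact zero_ne_one h2) (fun k => sg_sb hBA (hs k))
  refine ⟨k, l, hkl, ?_⟩
  have h1 : u k = c • u l := hinj (by rw [hc, Matrix.mulVec_smul])
  have h2 := congrFun h1 i₀
  rw [Pi.smul_apply, hu, hu, smul_eq_mul, mul_one] at h2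
  rw [h1, ← h2, one_smul]

theorem lt_max (j : Fin (n + 1)) (hj : j ≠ i₀) : w j < w i₀ := by
  classical
  refine lt_of_le_of_ne (hmax j) fun h => ?_
  obtain ⟨k, l, hkl, h1⟩ := lines_g hd hf hf0 H hAB hBA hg hw h0 hmax hmin
    (fun k => Pi.single i₀ 1 + (k : ℂ) • Pi.single j 1) (fun k => by
      rw [Pi.add_apply, Pi.single_eq_same, Pi.smul_apply, Pi.single_eq_of_ne (Ne.symm hj),
        smul_zero, add_zero]) (fun k => by
      refine crit_max hd hf hf0 H hAB hBA hg hw h0 hmax hmin _ fun l hl => ?_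
      have h2 : l ≠ i₀ := fun h3 => hl (by rw [h3])
      have h3 : l ≠ j := fun h3 => hl (by rw [h3, h])
      rw [Pi.add_apply, Pi.smul_apply, Pi.single_eq_of_ne h2, Pi.single_eq_of_ne h3, smul_zero,
        add_zero])
  have h2 := congrFun h1 j
  rw [Pi.add_apply, Pi.add_apply, Pi.smul_apply, Pi.smul_apply, Pi.single_eq_same, smul_eq_mul,
    smul_eq_mul, mul_one, mul_one, Pi.single_eq_of_ne hj, zero_add, zero_add] at h2
  exact hkl (by exact_mod_cast h2)

/-- **The pair of the second torus.** -/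
theorem pair_of : ∃ (a : Fin (n + 1) → ℕ) (e : ℕ), 0 < e ∧ 0 < ∑ i, a i ∧
    SF (fun _ : Fin 1 => f) 0 (-((∑ i, a i : ℕ) : ℂ) / e) ∧
    ∀ γ : Arc ℂ (Fin (n + 1)), aeval (tt A B a γ) f = PowerSeries.X ^ e * aeval γ f := by
  classical
  have hlt := lt_max hd hf hf0 H hAB hBA hg hw h0 hmax hmin
  set g := sb B f with hgdef
  set a : Fin (n + 1) → ℕ := fun j => (w i₀ - w j).toNat with ha
  set e : ℕ := d * (w i₀).toNat with he
  have ha' : ∀ j, ((a j : ℕ) : ℤ) = w i₀ - w j := fun j =>
    Int.toNat_of_nonneg (by have := hmax j; omega)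
  have he' : ((e : ℕ) : ℤ) = d * w i₀ := by
    rw [he]
    push_cast
    rw [Int.toNat_of_nonneg h0.le]
  have hd' : (3 : ℤ) ≤ d := by exact_mod_cast hd
  have he0 : 0 < e := by
    have : (0 : ℤ) < e := by
      rw [he']
      positivity
    exact_mod_cast this
  have hag : IsWeightedHomogeneous a g e := by
    intro α hα
    have h1 := hw α (mem_support_iff.2 hα)
    have h2 := hg hα
    rw [Finsupp.weight_apply, Finsupp.sum_fintype _ _ (by simp)] at h2 ⊢
    simp only [Pi.one_apply, smul_eq_mul, mul_one] at h2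
    have h3 : ((∑ i, α i • a i : ℕ) : ℤ) = e := by
      rw [he', Nat.cast_sum]
      have h4 : ∀ i, ((α i • a i : ℕ) : ℤ) = (α i : ℤ) * w i₀ - (α i : ℤ) * w i := by
        intro i
        rw [smul_eq_mul, Nat.cast_mul, ha']
        ring
      rw [Finset.sum_congr rfl fun i _ => h4 i, Finset.sum_sub_distrib, h1, sub_zero,
        ← Finset.sum_mul, ← h2]
      push_cast
      rfl
    exact_mod_cast h3
  have hai : a i₀ = 0 := by
    simp [ha]
  have hapos : ∀ j, j ≠ i₀ → 0 < a j := by
    intro j hj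
    have h1 := ha' j
    have h2 := hlt j hj
    omega
  have hae : ∀ j, a j < e := by
    intro j
    have h1 := ha' j
    have h2 := hmin j
    have : ((a j : ℕ) : ℤ) < e := by
      rw [h1, he']
      linarith
    exact_mod_cast this
  -- the vertex is critical
  have hcv : Sg g (i₀.insertNth 1 (0 : Fin n → ℂ)) := by
    refine crit_max hd hf hf0 H hAB hBA hg hw h0 hmax hmin _ fun j hj => ?_
    induction j using i₀.succAboveCases with
    | x => exact absurd rfl hj
    | p t => rw [Fin.insertNth_apply_succAbove, Pi.zero_apply]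
  have hn : 0 < n := by
    refine pos_of_sg (by omega) hf hf0 (x := B.mulVec (i₀.insertNth 1 (0 : Fin n → ℂ))) ?_
      (sg_sb hBA hcv)
    intro h1
    have h2 := congrArg A.mulVec h1
    rw [Matrix.mulVec_mulVec, hAB, Matrix.one_mulVec, Matrix.mulVec_zero] at h2
    have h3 := congrFun h2 i₀
    rw [Fin.insertNth_apply_same] at h3
    exact one_ne_zero h3
  -- the germ
  have hwhi : WHI (germAt i₀ 0 g) (fun t => a (i₀.succAbove t)) e := by
    refine ⟨fun t => hapos _ (Fin.succAbove_ne i₀ t), wh_germAt i₀ a hai g e hag, fun v => ?_⟩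
    have hev : ∀ (p : MvPolynomial (Fin (n + 1)) ℂ) (v : Fin n → ℂ),
        eval v (germAt i₀ 0 p) = eval (i₀.insertNth 1 v) p := by
      intro p v
      have h1 : (eval v).comp (aeval (i₀.insertNth 1 fun t => X t + C ((0 : Fin n → ℂ) t) :
          Fin (n + 1) → MvPolynomial (Fin n) ℂ) : MvPolynomial (Fin (n + 1)) ℂ →ₐ[ℂ] _).toRingHom =
          eval (i₀.insertNth 1 v) := by
        apply ringHom_ext
        · intro r
          simp
        · intro j
          simp only [AlgHom.toRingHom_eq_coe, RingHom.coe_comp, RingHom.coe_coe,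
            Function.comp_apply, aeval_X, eval_X]
          induction j using i₀.succAboveCases with
          | x => rw [Fin.insertNth_apply_same, Fin.insertNth_apply_same, map_one]
          | p t =>
            rw [Fin.insertNth_apply_succAbove, Fin.insertNth_apply_succAbove, Pi.zero_apply,
              map_zero, add_zero, eval_X]
      exact RingHom.congr_fun h1 p
    constructor
    · intro h1
      have h2 : ∀ t, eval (i₀.insertNth 1 v) (pderiv (i₀.succAbove t) g) = 0 := by
        intro t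
        have h3 := h1 t
        rw [pderiv_germAt, hev] at h3
        exact h3
      -- the value
      have h3 : eval (i₀.insertNth 1 v) g = 0 := by
        have h4 := congrArg (eval (i₀.insertNth 1 v)) (euler_w a g e hag)
        rw [map_sum, Fin.sum_univ_succAbove _ i₀, hai, Nat.cast_zero, map_zero, zero_mul, zero_mul,
          map_zero, zero_add, Finset.sum_eq_zero (fun t _ => by rw [map_mul, h2, mul_zero]),
          map_mul, eval_C] at h4
        exact (mul_eq_zero.1 h4.symm).resolve_left (by exact_mod_cast he0.ne')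
      have h4 : Sg g (i₀.insertNth 1 v) := by
        intro j
        induction j using i₀.succAboveCases with
        | p t => exact h2 t
        | x =>
          have h5 := congrArg (eval (i₀.insertNth 1 v)) (euler_hom g d hg)
          rw [map_sum, Fin.sum_univ_succAbove _ i₀, map_mul, map_mul, eval_X, eval_C, h3,
            mul_zero, Fin.insertNth_apply_same, one_mul] at h5
          rw [Finset.sum_eq_zero (fun t _ => by rw [map_mul, h2, mul_zero]), add_zero] at h5
          exact h5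
      -- the orbit
      by_contra hv
      obtain ⟨t, ht⟩ := Function.ne_iff.1 hv
      obtain ⟨k, l, hkl, h5⟩ := lines_g hd hf hf0 H hAB hBA hg hw h0 hmax hmin
        (fun k i => ((k : ℂ) + 1) ^ a i * (i₀.insertNth 1 v : Fin (n + 1) → ℂ) i) (fun k => by
          rw [hai, pow_zero, one_mul, Fin.insertNth_apply_same]) (fun k j => by
          have h6 : IsWeightedHomogeneous a (pderiv j g) (e - a j) :=
            hag.pderiv (by have := hae j; omega)
          rw [eval_wh a _ _ h6, h4 j, mul_zero])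
      have h6 := congrFun h5 (i₀.succAbove t)
      rw [Fin.insertNth_apply_succAbove] at h6
      have h7 := mul_right_cancel₀ ht h6
      have h8 : (k + 1) ^ a (i₀.succAbove t) = (l + 1) ^ a (i₀.succAbove t) := by exact_mod_cast h7
      have h9 := Nat.pow_left_injective (hapos _ (Fin.succAbove_ne i₀ t)).ne' h8
      omega
    · rintro rfl t
      rw [pderiv_germAt, hev]
      exact hcv _
  have hsf := hwhi.sf hn
  have hsum : ∑ i, a i = ∑ t, a (i₀.succAbove t) := by
    rw [Fin.sum_univ_succAbove _ i₀, hai, zero_add]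
  refine ⟨a, e, he0, ?_, ?_, fun γ => ?_⟩
  · rw [hsum]
    exact Finset.sum_pos (fun t _ => hapos _ (Fin.succAbove_ne i₀ t)) ⟨⟨0, hn⟩, Finset.mem_univ _⟩
  · rw [hsum]
    exact sf_sb hBA f hf0 _ (sf_line g d hg i₀ 0 (hwhi.ne hn) _ hsf)
  · unfold tt
    rw [aeval_la, aeval_ts hag, aeval_la, hgdef, sb_sb, hBA, sb_one]

end

/-- **The root of the vertex, or the pair of a singular line.** -/
theorem sf_or_pair {f : MvPolynomial (Fin (n + 1)) ℂ} {d : ℕ} (hd : 3 ≤ d)
    (hf : f.IsHomogeneous d) (hf0 : f ≠ 0) (H : LH f) :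
    SF (fun _ : Fin 1 => f) 0 (-((n + 1 : ℕ) : ℂ) / d) ∨
    ∃ (A B : Matrix (Fin (n + 1)) (Fin (n + 1)) ℂ) (a : Fin (n + 1) → ℕ) (e : ℕ),
      A * B = 1 ∧ B * A = 1 ∧ 0 < e ∧ 0 < ∑ i, a i ∧
      SF (fun _ : Fin 1 => f) 0 (-((∑ i, a i : ℕ) : ℂ) / e) ∧
      ∀ γ : Arc ℂ (Fin (n + 1)), aeval (tt A B a γ) f = PowerSeries.X ^ e * aeval γ f := by
  classical
  rw [or_iff_not_imp_left]
  intro hSF
  obtain ⟨H', b, hb, hH', hbα⟩ : ∃ (H' : MvPolynomial (Fin (n + 1)) ℂ) (b : Polynomial ℂ),
      IsLocEq H' (fun _ : Fin 1 => f) b ∧ eval 0 H' ≠ 0 ∧ b.eval (-((n + 1 : ℕ) : ℂ) / d) ≠ 0 := by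
    by_contra hc
    push Not at hc
    exact hSF (sf_of_local _ _ _ (fun H' b hb hH => hc H' b hb hH) (exists_fe _ ⟨0, hf0⟩))
  obtain ⟨P, hP⟩ := eq_of_locEq1 H' _ b hb
  have hd0 : (d : ℂ) ≠ 0 := by
    have : d ≠ 0 := by omega
    exact_mod_cast this
  have hc0 : constantCoeff f = 0 := by
    have h2 := eval_homog f d hf 0 0
    rw [zero_pow (by omega), zero_mul, zero_smul, eval_zero] at h2
    exact h2
  have hdv : constantCoeff (dv fun i : Fin (n + 1) => (X i : MvPolynomial (Fin (n + 1)) ℂ)) =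
      ((n + 1 : ℕ) : ℂ) := by
    unfold dv
    rw [map_sum]
    simp only [pderiv_X_self, map_one]
    rw [Finset.sum_const, Finset.card_univ, Fintype.card_fin, nsmul_eq_mul, mul_one]
  rcases root_or_field f hf0 hc0 (lty (by omega) hf hf0 H) (fun i => X i) d hd0 (euler_hom f d hf)
    (fun i => by rw [constantCoeff_X]) H' (by rwa [eval_zero] at hH') b P hP with h1 | ⟨η, h1, h2⟩
  · rw [hdv] at h1
    exact absurd h1 hbα
  · obtain ⟨A, B, w, hAB, hBA, hw, hg, hwα⟩ := exists_second' f d (by omega) hf η h1 h2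
    obtain ⟨w', i₀, hw', h0, hmax, hmin⟩ := exists_sign d hd w hw
    have hwα' : ∀ α ∈ (sb B f).support, ∑ i, (α i : ℤ) * w' i = 0 := by
      intro α hα
      rcases hw' with rfl | rfl
      · exact hwα α hα
      · simp only [Pi.neg_apply, mul_neg]
        rw [Finset.sum_neg_distrib, hwα α hα, neg_zero]
    obtain ⟨a, e, h1, h2, h3, h4⟩ := pair_of hd hf hf0 H hAB hBA hg hwα' h0 hmax hmin
    exact ⟨A, B, a, e, hAB, hBA, h1, h2, h3, h4⟩

end Pool.Agent.H940.F
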