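import Pool.Agent.H940.F.Fin

set_option autoImplicit false
set_option linter.unusedSectionVars false
set_option linter.unusedVariables false

/-! # The classes of germs and of families generated by the forms with locally weighted homogeneous
isolated singularities -/

namespace Pool.Agent.H940.F

open MvPolynomial
open Pool.Agent.Q57.MC (Chart mulF hypF)
open Pool.Agent.Q57.MD (sumF IsForm Tower Glob)
open Pool.Agent.H940.Z (WHI)
open Pool.Agent.H940.G (LH)

/-- The classes of tuples (germs at the origin) generated by the forms with locally weighted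
homogeneous isolated singularities. `b = true` is the smaller class, for which sums of ideals in
disjoint sets of variables are defined. -/
inductive Germ : Bool → (n r : ℕ) → (Fin r → MvPolynomial (Fin n) ℂ) → Prop
  /-- the forms `f ≠ 0` of degree `d ≥ 3` in the class `LH`: at every singular point of the projective
  hypersurface the germ is weighted homogeneous with an isolated critical point, in formal
  coordinates and up to a unit -/
  | form {n : ℕ} (f : MvPolynomial (Fin (n + 1)) ℂ) (d : ℕ) (hd : 3 ≤ d) (hf : f.IsHomogeneous d)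
      (hf0 : f ≠ 0) (H : LH f) : Germ true (n + 1) 1 fun _ => f
  /-- weighted homogeneous polynomials with an isolated critical point at the origin -/
  | whi {n : ℕ} (hn : 0 < n) (g : MvPolynomial (Fin n) ℂ) (w : Fin n → ℕ) (N : ℕ)
      (hg : WHI g w N) : Germ true n 1 fun _ => g
  /-- the class of cones of the library -/
  | tower {b : Bool} {n r : ℕ} (f : Fin r → MvPolynomial (Fin n) ℂ) (hf : Tower b n r f) :
      Germ b n r f
  /-- the germs of the small class -/
  | weak {n r : ℕ} (f : Fin r → MvPolynomial (Fin n) ℂ) (hf : Germ true n r f) : Germ false n r f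
  /-- forms `f_j` of degree `d` in the variables `x_i`, `i ∈ T`, such that every point `p ≠ 0` with
  `f_j(p) = 0` for all `j` and `p_i = 0` for `i ∉ T` is in a chart of a finite set -/
  | cone {b : Bool} {n r : ℕ} (f : Fin r → MvPolynomial (Fin n) ℂ) (T : Finset (Fin n)) (d : ℕ)
      (hf : IsForm T d f) (S : Finset (Chart (Fin n))) (hS : ∀ A ∈ S, A.Fits f)
      (hT : ∀ A ∈ S, Germ b A.c A.r A.h)
      (hp : ∀ p : Fin n → ℂ, p ≠ 0 → (∀ i ∉ T, p i = 0) → (∀ j, eval p (f j) = 0) →
        ∃ A ∈ S, A.Mem p) : Germ b n r f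
  /-- products of ideals in disjoint sets of variables -/
  | mul {b : Bool} {n r n' r' : ℕ} (f : Fin r → MvPolynomial (Fin n) ℂ)
      (g : Fin r' → MvPolynomial (Fin n') ℂ) (hf : Germ b n r f) (hg : Germ b n' r' g) :
      Germ b (n + n') (r * r') (mulF f g)
  /-- sums of ideals in disjoint sets of variables -/
  | sum {n r n' r' : ℕ} (f : Fin r → MvPolynomial (Fin n) ℂ)
      (g : Fin r' → MvPolynomial (Fin n') ℂ) (hf : Germ true n r f) (hg : Germ true n' r' g) :
      Germ true (n + n') (r + r') (sumF f g)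
  /-- the hypersurface `∑ y_j f_j = 0` -/
  | hyp {b : Bool} {n r : ℕ} (f : Fin r → MvPolynomial (Fin n) ℂ) (hf : Germ b n r f) :
      Germ b (n + r) 1 fun _ => hypF f
  /-- in `ℂ[[x]]` the `f_j` generate the same ideal as the `h_k(g_1, …, g_c)`, where `g_1, …, g_c`
  are a part of a system of formal coordinates -/
  | formal {b : Bool} {n r c l : ℕ} (f : Fin r → MvPolynomial (Fin n) ℂ)
      (h : Fin l → MvPolynomial (Fin c) ℂ) (g : Fin c → MvPowerSeries (Fin n) ℂ)
      (s : Fin c → Fin n) (hg : ∀ t, MvPowerSeries.constantCoeff (g t) = 0)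
      (hd : (Matrix.of fun u t => MvPowerSeries.coeff (Finsupp.single (s u) 1) (g t)).det ≠ 0)
      (hs : Ideal.span (Set.range fun j =>
          ((f j : MvPolynomial (Fin n) ℂ) : MvPowerSeries (Fin n) ℂ)) =
        Ideal.span (Set.range fun k => aeval g (h k))) (hh : Germ b c l h) : Germ b n r f

/-- The classes of families of polynomials on `ℂ ^ n`. -/
inductive Fam : Bool → (n r : ℕ) → (Fin r → MvPolynomial (Fin n) ℂ) → Prop
  /-- the forms `f ≠ 0` of degree `d ≥ 3` in the class `LH` -/
  | form {n : ℕ} (f : MvPolynomial (Fin (n + 1)) ℂ) (d : ℕ) (hd : 3 ≤ d) (hf : f.IsHomogeneous d)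
      (hf0 : f ≠ 0) (H : LH f) : Fam true (n + 1) 1 fun _ => f
  /-- the class of the library -/
  | glob {b : Bool} {n r : ℕ} (f : Fin r → MvPolynomial (Fin n) ℂ) (hf : Glob b n r f) : Fam b n r f
  /-- every common zero of the `f_j` is in a chart of a finite set -/
  | charts {b : Bool} {n r : ℕ} (f : Fin r → MvPolynomial (Fin n) ℂ) (S : Finset (Chart (Fin n)))
      (hS : ∀ A ∈ S, A.Fits f) (hT : ∀ A ∈ S, Germ b A.c A.r A.h)
      (hp : ∀ p : Fin n → ℂ, (∀ j, eval p (f j) = 0) → ∃ A ∈ S, A.Mem p) : Fam b n r f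
  /-- forms `f_j` of degree `d` in the variables `x_i`, `i ∈ T`, such that every common zero `p` with
  `p_i ≠ 0` for some `i ∈ T` is in a chart of a finite set -/
  | cone {b : Bool} {n r : ℕ} (f : Fin r → MvPolynomial (Fin n) ℂ) (T : Finset (Fin n)) (d : ℕ)
      (hf : IsForm T d f) (S : Finset (Chart (Fin n))) (hS : ∀ A ∈ S, A.Fits f)
      (hT : ∀ A ∈ S, Germ b A.c A.r A.h)
      (hp : ∀ p : Fin n → ℂ, (∃ i ∈ T, p i ≠ 0) → (∀ j, eval p (f j) = 0) →
        ∃ A ∈ S, A.Mem p) : Fam b n r f
  /-- the families of the small class -/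
  | weak {n r : ℕ} (f : Fin r → MvPolynomial (Fin n) ℂ) (hf : Fam true n r f) : Fam false n r f
  /-- products of ideals in disjoint sets of variables -/
  | mul {b : Bool} {n r n' r' : ℕ} (f : Fin r → MvPolynomial (Fin n) ℂ)
      (g : Fin r' → MvPolynomial (Fin n') ℂ) (hf : Fam b n r f) (hg : Fam b n' r' g) :
      Fam b (n + n') (r * r') (mulF f g)
  /-- sums of ideals in disjoint sets of variables -/
  | sum {n r n' r' : ℕ} (f : Fin r → MvPolynomial (Fin n) ℂ)
      (g : Fin r' → MvPolynomial (Fin n') ℂ) (hf : Fam true n r f) (hg : Fam true n' r' g) :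
      Fam true (n + n') (r + r') (sumF f g)
  /-- the hypersurface `∑ y_j f_j = 0` -/
  | hyp {b : Bool} {n r : ℕ} (f : Fin r → MvPolynomial (Fin n) ℂ) (hf : Fam b n r f) :
      Fam b (n + r) 1 fun _ => hypF f

end Pool.Agent.H940.F
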