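import Pool.Agent.H940.F.Pair

set_option autoImplicit false
set_option linter.unusedSectionVars false
set_option linter.unusedVariables false

/-! # The motivic zeta function, with finitely many pairs -/

namespace Pool.Agent.H940.F

open MvPolynomial Pool.Agent.W428.MOT Pool.Agent.TH192.MT Pool.Agent.TH192.DT Pool.Agent.Q49.CO
open Pool.Agent.Q57.QM Pool.Agent.Y229 Pool.Agent.Q57.MC Pool.Agent.Q57.MD
open Pool.Agent.H940.LT (eval_homog euler_hom LTy hom_lty root_or_field dv)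
open Pool.Agent.H940.Z Pool.Agent.H940.G Pool.Agent.H940.G.LA

variable {n : ℕ}

section

variable {f : MvPolynomial (Fin (n + 1)) ℂ} {d : ℕ} (hd : 3 ≤ d) (hf : f.IsHomogeneous d)
  (hf0 : f ≠ 0) (H : LH f) {M : Meas ℂ (MK ℂ)} (hL : M.L = ((Lu ℂ : (MK ℂ)ˣ) : MK ℂ))
include hd hf hf0 H hL

/-- **The volumes of all arcs: finitely many pairs, which are roots.** -/
theorem fin_univ : ∃ S : Finset (ℤ × ℤ), (∀ q ∈ S, q.1 < 0 ∧ 0 < q.2 ∧
      SF (fun _ : Fin 1 => f) 0 ((q.1 : ℂ) / q.2)) ∧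
      VS M (((Lu ℂ)⁻¹ : (MK ℂ)ˣ) : MK ℂ) (fun _ => True) f ∈
        ratU (Lu ℂ) (S : Set (ℤ × ℤ)) := by
  classical
  have hd2 : 2 ≤ d := by omega
  obtain ⟨D, hD, hD1, hDl⟩ := exists_pairs hd2 hf hf0 H hL
  have hsc : ∀ γ : Arc ℂ (Fin (n + 1)), aeval (fun i => PowerSeries.X * γ i) f =
      PowerSeries.X ^ d * aeval γ f := fun γ => aeval_homog f d hf γ _
  have hmono : ∀ q : ℤ × ℤ, (D : Set (ℤ × ℤ)) ⊆ ((insert q D : Finset (ℤ × ℤ)) : Set (ℤ × ℤ)) :=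
    fun q => Finset.coe_subset.2 (Finset.subset_insert _ _)
  have hout : ∀ (q : ℤ × ℤ) (A : Matrix (Fin (n + 1)) (Fin (n + 1)) ℂ) (m : Fin (n + 1) → ℕ),
      VS M (((Lu ℂ)⁻¹ : (MK ℂ)ˣ) : MK ℂ) (fun γ => Box A m γ ∧ ¬ Or γ) f ∈
        ratU (Lu ℂ) ((insert q D : Finset (ℤ × ℤ)) : Set (ℤ × ℤ)) := by
    intro q A m
    refine out_mem hd2 hf hf0 H hL _ (Finset.mem_coe.2 (Finset.mem_insert_of_mem hD1))
      (fun s hs hs' => rat_mono (Lu ℂ) (hmono q) (hDl s hs hs')) ((cyl_Box A m).and (cyl_Or _).not)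
      (fun γ h => h.2) (∑ i, m i + 1) (Nat.succ_pos _) (an_box A m)
  rcases sf_or_pair hd hf hf0 H with h1 | ⟨A, A', a, e, hAA, hAA', he, ha, hsf, hsec⟩
  · refine ⟨insert (-((n + 1 : ℕ) : ℤ), (d : ℤ)) D, fun q hq => ?_, ?_⟩
    · rcases Finset.mem_insert.1 hq with rfl | hq
      · refine ⟨by simp only; omega, by simp only; omega, ?_⟩
        simp only
        push_cast at h1 ⊢
        exact h1
      · exact hD q hq
    · refine univ_scalar M (Lu ℂ) hL _ f d (by omega) hsc ?_ ?_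
      · rw [Fintype.card_fin]
        exact Finset.mem_coe.2 (Finset.mem_insert_self _ _)
      · have h1 := hout (-((n + 1 : ℕ) : ℤ), (d : ℤ)) 1 (fun _ => 0)
        rw [box_zero M (Lu ℂ) hL] at h1
        simp only [true_and] at h1
        exact h1
  · refine ⟨insert (-((∑ i, a i : ℕ) : ℤ), (e : ℤ)) D, fun q hq => ?_, ?_⟩
    · rcases Finset.mem_insert.1 hq with rfl | hq
      · refine ⟨by simp only; omega, by simp only; omega, ?_⟩
        simp only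
        push_cast at hsf ⊢
        exact hsf
      · exact hD q hq
    · exact univ_second M (Lu ℂ) hL _ f d hsc hAA hAA' a e he hsec
        (Finset.mem_coe.2 (Finset.mem_insert_self _ _)) (hout _ A)

/-- **The germ at the origin.** -/
theorem pm_form : PM M true (fun _ : Fin 1 => f) := by
  have hv : M.L * (((Lu ℂ)⁻¹ : (MK ℂ)ˣ) : MK ℂ) = 1 := by rw [hL, Units.mul_inv]
  obtain ⟨S, hS, hz⟩ := fin_univ hd hf hf0 H hL
  refine ⟨⟨0, hf0⟩, S, hS, ?_⟩
  rw [SW_true, vw_zero hv]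
  exact or_of_univ M (Lu ℂ) hL _ f d (fun γ => aeval_homog f d hf γ _) hz

/-- **The global form.** -/
theorem gm_form : GM M true (fun _ : Fin 1 => f) := by
  have hv : M.L * (((Lu ℂ)⁻¹ : (MK ℂ)ˣ) : MK ℂ) = 1 := by rw [hL, Units.mul_inv]
  obtain ⟨S, hS, hz⟩ := fin_univ hd hf hf0 H hL
  refine ⟨⟨0, hf0⟩, S, fun q hq => ⟨(hS q hq).1, (hS q hq).2.1, 0, (hS q hq).2.2⟩, ?_⟩
  rw [SW_true, vw_univ hv]
  exact hz

end

end Pool.Agent.H940.F
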