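import Pool.Agent.H940.G.Defs
import Pool.Graph.R_pool_sql_team_seeded_3997aac3.Q57.MD.Defs

set_option autoImplicit false

/-! # The tuples generated by the forms with locally weighted homogeneous isolated singularities -/

namespace Pool.Agent.H940.F

open MvPolynomial
open Pool.Agent.Q57.MC (mulF hypF)
open Pool.Agent.Q57.MD (sumF)
open Pool.Agent.H940.G (germAt WHG)

/-- `f ≠ 0` is a form of degree `d ≥ 3`, and for every singular point of the projective hypersurface,
with the coordinates `x_i = 1` and `q` (all partial derivatives of `f` vanish there), the germ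
`germAt i q f` of the dehomogenized form is weighted homogeneous with an isolated critical point in
suitable formal coordinates and up to a unit. -/
structure IsLW {n : ℕ} (f : MvPolynomial (Fin (n + 1)) ℂ) (d : ℕ) : Prop where
  three_le : 3 ≤ d
  hom : f.IsHomogeneous d
  ne : f ≠ 0
  loc : ∀ (i : Fin (n + 1)) (q : Fin n → ℂ), (∀ j, eval (i.insertNth 1 q) (pderiv j f) = 0) →
    ∃ (g : MvPolynomial (Fin n) ℂ) (w : Fin n → ℕ) (N : ℕ) (η : Fin n → MvPowerSeries (Fin n) ℂ),
      WHG (germAt i q f) g w N η

/-- The smallest class of tuples of polynomials (ideals of germs at the origin) with the following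
properties. -/
inductive Germs : (n r : ℕ) → (Fin r → MvPolynomial (Fin n) ℂ) → Prop
  /-- the forms of degree `≥ 3` with locally weighted homogeneous isolated singularities -/
  | form {n : ℕ} (f : MvPolynomial (Fin (n + 1)) ℂ) (d : ℕ) (hf : IsLW f d) :
      Germs (n + 1) 1 fun _ => f
  /-- weighted homogeneous polynomials with an isolated critical point at the origin -/
  | whi {n : ℕ} (hn : 0 < n) (g : MvPolynomial (Fin n) ℂ) (w : Fin n → ℕ) (N : ℕ)
      (hw : ∀ i, 0 < w i) (hg : IsWeightedHomogeneous w g N)
      (hc : ∀ v : Fin n → ℂ, (∀ i, eval v (pderiv i g) = 0) ↔ v = 0) : Germs n 1 fun _ => g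
  /-- products of ideals in disjoint sets of variables -/
  | mul {n r n' r' : ℕ} (f : Fin r → MvPolynomial (Fin n) ℂ)
      (g : Fin r' → MvPolynomial (Fin n') ℂ) (hf : Germs n r f) (hg : Germs n' r' g) :
      Germs (n + n') (r * r') (mulF f g)
  /-- sums of ideals in disjoint sets of variables -/
  | sum {n r n' r' : ℕ} (f : Fin r → MvPolynomial (Fin n) ℂ)
      (g : Fin r' → MvPolynomial (Fin n') ℂ) (hf : Germs n r f) (hg : Germs n' r' g) :
      Germs (n + n') (r + r') (sumF f g)
  /-- the hypersurface `∑ y_j f_j = 0` -/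
  | hyp {n r : ℕ} (f : Fin r → MvPolynomial (Fin n) ℂ) (hf : Germs n r f) :
      Germs (n + r) 1 fun _ => hypF f
  /-- in `ℂ[[x]]` the `f_j` generate the same ideal as the `h_k(g_1, …, g_c)`, where `g_1, …, g_c`
  are a part of a system of formal coordinates -/
  | formal {n r c l : ℕ} (f : Fin r → MvPolynomial (Fin n) ℂ)
      (h : Fin l → MvPolynomial (Fin c) ℂ) (g : Fin c → MvPowerSeries (Fin n) ℂ)
      (s : Fin c → Fin n) (hg : ∀ t, MvPowerSeries.constantCoeff (g t) = 0)
      (hd : (Matrix.of fun u t => MvPowerSeries.coeff (Finsupp.single (s u) 1) (g t)).det ≠ 0)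
      (hs : Ideal.span (Set.range fun j =>
          ((f j : MvPolynomial (Fin n) ℂ) : MvPowerSeries (Fin n) ℂ)) =
        Ideal.span (Set.range fun k => aeval g (h k))) (hh : Germs c l h) : Germs n r f

/-- The smallest class of families of polynomials on `ℂ ^ n` with the following properties. -/
inductive Fams : (n r : ℕ) → (Fin r → MvPolynomial (Fin n) ℂ) → Prop
  /-- the forms of degree `≥ 3` with locally weighted homogeneous isolated singularities -/
  | form {n : ℕ} (f : MvPolynomial (Fin (n + 1)) ℂ) (d : ℕ) (hf : IsLW f d) :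
      Fams (n + 1) 1 fun _ => f
  /-- products of ideals in disjoint sets of variables -/
  | mul {n r n' r' : ℕ} (f : Fin r → MvPolynomial (Fin n) ℂ)
      (g : Fin r' → MvPolynomial (Fin n') ℂ) (hf : Fams n r f) (hg : Fams n' r' g) :
      Fams (n + n') (r * r') (mulF f g)
  /-- sums of ideals in disjoint sets of variables -/
  | sum {n r n' r' : ℕ} (f : Fin r → MvPolynomial (Fin n) ℂ)
      (g : Fin r' → MvPolynomial (Fin n') ℂ) (hf : Fams n r f) (hg : Fams n' r' g) :
      Fams (n + n') (r + r') (sumF f g)
  /-- the hypersurface `∑ y_j f_j = 0` -/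
  | hyp {n r : ℕ} (f : Fin r → MvPolynomial (Fin n) ℂ) (hf : Fams n r f) :
      Fams (n + r) 1 fun _ => hypF f

end Pool.Agent.H940.F
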