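import Pool.Agent.H940.F.Steps
import Pool.Agent.H940.F.Small

set_option autoImplicit false

/-! # The small classes are in the large classes -/

namespace Pool.Agent.H940.F

open MvPolynomial
open Pool.Agent.Q57.MC (mulF hypF)
open Pool.Agent.Q57.MD (sumF)

theorem Germs.germ {n r : ℕ} {f : Fin r → MvPolynomial (Fin n) ℂ} (h : Germs n r f) :
    Germ true n r f := by
  induction h with
  | form f d hf => exact .form f d hf.three_le hf.hom hf.ne hf.loc
  | whi hn g w N hw hg hc => exact .whi hn g w N ⟨hw, hg, hc⟩
  | mul f g hf hg ihf ihg => exact .mul f g ihf ihg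
  | sum f g hf hg ihf ihg => exact .sum f g ihf ihg
  | hyp f hf ih => exact .hyp f ih
  | formal f h g s hg hd hs hh ih => exact .formal f h g s hg hd hs ih

theorem Fams.fam {n r : ℕ} {f : Fin r → MvPolynomial (Fin n) ℂ} (h : Fams n r f) :
    Fam true n r f := by
  induction h with
  | form f d hf => exact .form f d hf.three_le hf.hom hf.ne hf.loc
  | mul f g hf hg ihf ihg => exact .mul f g ihf ihg
  | sum f g hf hg ihf ihg => exact .sum f g ihf ihg
  | hyp f hf ih => exact .hyp f ih

end Pool.Agent.H940.F
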