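import Pool.Agent.H940.G.Main

set_option autoImplicit false
set_option linter.unusedSectionVars false
set_option linter.unusedVariables false

/-! # The pair of the second torus -/

namespace Pool.Agent.H940.F

open MvPolynomial Pool.Agent.W428.MOT Pool.Agent.TH192.MT Pool.Agent.TH192.DT Pool.Agent.Q49.CO
open Pool.Agent.Q57.QM Pool.Agent.Y229 Pool.Agent.Q57.MC Pool.Agent.Q57.MD
open Pool.Agent.W574.LM (IsLocEq)
open Pool.Agent.H940.LT (eval_homog euler_hom LTy hom_lty root_or_field dv)
open Pool.Agent.H940.Z Pool.Agent.H940.G Pool.Agent.H940.G.LA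

variable {n : ℕ}

/-- **The second torus**, with the weights of the monomials. -/
theorem exists_second' (f : MvPolynomial (Fin (n + 1)) ℂ) (d : ℕ) (hd : 1 ≤ d)
    (hf : f.IsHomogeneous d) (η : Fin (n + 1) → MvPolynomial (Fin (n + 1)) ℂ)
    (hη : ∑ i, η i * pderiv i f = 0) (hdv : constantCoeff (dv η) ≠ 0) :
    ∃ (A B : Matrix (Fin (n + 1)) (Fin (n + 1)) ℂ) (w : Fin (n + 1) → ℤ),
      A * B = 1 ∧ B * A = 1 ∧ ∑ i, w i ≠ 0 ∧ (sb B f).IsHomogeneous d ∧
      ∀ α ∈ (sb B f).support, ∑ i, (α i : ℤ) * w i = 0 := by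
  classical
  set A : Matrix (Fin (n + 1)) (Fin (n + 1)) ℂ := fun i j => coeff (Finsupp.single j 1) (η i)
    with hA
  set T : Module.End ℂ (Fin (n + 1) → ℂ) := Matrix.toLin' A.transpose with hT
  have hTs : ∀ i, T (Pi.single i 1) = A i := by
    intro i
    funext j
    rw [hT, Matrix.toLin'_apply, Matrix.mulVec_single_one]
    rfl
  have h1 : LA.Dl T f = 0 := by
    have h2 := congrArg (homogeneousComponent (1 + (d - 1))) hη
    rw [map_sum, map_zero] at h2
    have h3 : ∀ i, homogeneousComponent (1 + (d - 1)) (η i * pderiv i f) =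
        lf (A i) * pderiv i f := by
      intro i
      rw [hc_mul _ _ _ _ hf.pderiv, hc_one]
    rw [Finset.sum_congr rfl fun i _ => h3 i] at h2
    rw [← h2]
    have h4 : LA.Dl T = ∑ i, lf (A i) • pderiv i := by
      refine derivation_ext fun j => ?_
      rw [Dl_X, hTs, der_sum, Finset.sum_eq_single j]
      · rw [Derivation.smul_apply, pderiv_X_self, smul_eq_mul, mul_one]
      · intro i _ hi
        rw [Derivation.smul_apply, pderiv_X_of_ne (Ne.symm hi), smul_zero]
      · intro h5
        exact absurd (Finset.mem_univ _) h5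
    rw [h4, der_sum]
    exact Finset.sum_congr rfl fun i _ => by rw [Derivation.smul_apply, smul_eq_mul]
  obtain ⟨Y, Z, lam, hYZ, hZY, htr, hlam⟩ := exists_coords T f h1
  have h2 : ∑ i, lam i ≠ 0 := by
    rw [htr, hT, Matrix.trace_toLin'_eq]
    intro h3
    apply hdv
    rw [← h3, dv, map_sum, Matrix.trace]
    refine Finset.sum_congr rfl fun i _ => ?_
    rw [Matrix.diag_apply, Matrix.transpose_apply, constantCoeff_eq, coeff_pderiv]
    simp only [zero_add, Finsupp.coe_zero, Pi.zero_apply, Nat.cast_zero, mul_one]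
    rfl
  have hg : (sb Z f).IsHomogeneous d := by
    have h3 := hf.aeval (fun i => lf (Z i)) (n := 1) fun i => by
      rw [lf_apply]
      exact IsHomogeneous.sum _ _ _ fun j _ => by
        have := (isHomogeneous_C (Fin (n + 1)) (Z i j)).mul (isHomogeneous_X ℂ j)
        rwa [zero_add] at this
    rwa [one_mul] at h3
  obtain ⟨w, c₀, hw, hc₀, hpos, hwh⟩ := exists_weights lam h2 (sb Z f) d hd hg hlam
  refine ⟨Y, Z, w, hYZ, hZY, hw, hg, fun α hα => ?_⟩
  have h3 := hwh c₀ le_rfl (mem_support_iff.1 hα)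
  have h4 := hg (mem_support_iff.1 hα)
  rw [Finsupp.weight_apply, Finsupp.sum_fintype _ _ (by simp)] at h3 h4
  simp only [Pi.one_apply, smul_eq_mul, mul_one] at h3 h4
  have h5 : ((∑ i, α i * (w i + c₀).toNat : ℕ) : ℤ) = ((c₀ * d : ℕ) : ℤ) := by rw [h3]
  push_cast at h5
  have h6 : ∀ i, (α i : ℤ) * ((w i + c₀).toNat : ℤ) = (α i : ℤ) * w i + (α i : ℤ) * c₀ := by
    intro i
    rw [Int.toNat_of_nonneg (hpos i).le]
    ring
  rw [Finset.sum_congr rfl fun i _ => h6 i, Finset.sum_add_distrib, ← Finset.sum_mul] at h5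
  have h7 : ∑ i, (α i : ℤ) = d := by
    rw [← h4]
    push_cast
    rfl
  rw [h7] at h5
  linear_combination h5

/-- critical points on infinitely many lines -/
theorem lines_inj {f : MvPolynomial (Fin (n + 1)) ℂ} {d : ℕ} (hd : 2 ≤ d)
    (hf : f.IsHomogeneous d) (hf0 : f ≠ 0) (H : LH f) (u : ℕ → Fin (n + 1) → ℂ)
    (hu : ∀ k, u k ≠ 0) (hs : ∀ k, Sg f (u k)) : ∃ k l, k ≠ l ∧ ∃ c : ℂ, u k = c • u l := by
  classical
  choose s hs1 hs2 using fun k => exists_On (u k) (hu k)
  have hfin := finite_lines hd hf hf0 H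
  have h1 : ∀ k, s k ∈ {s : Fin (n + 1) × (Fin n → ℂ) | Cn s ∧ Sg f (pt s)} := fun k =>
    ⟨hs1 k, (hs2 k).sg hf (hs k)⟩
  obtain ⟨k, -, l, -, hkl, h2⟩ := Set.infinite_univ.exists_ne_map_eq_of_mapsTo
    (f := s) (fun k _ => h1 k) hfin
  refine ⟨k, l, hkl, u k (s k).1 / u l (s l).1, ?_⟩
  have h3 := (hs2 k).eq
  have h4 := (hs2 l).eq
  have h5 := (hs2 l).1
  have h6 : pt (s l) = (u l (s l).1)⁻¹ • u l := by
    conv_rhs => rw [h4]
    rw [smul_smul, Pi.smul_apply, pt_same, smul_eq_mul, mul_one, inv_mul_cancel₀ h5, one_smul]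
  conv_lhs => rw [h3, h2, h6]
  rw [smul_smul, h2, div_eq_mul_inv]

/-- a linear change of the coordinates -/
theorem eval_sb (B : Matrix (Fin (n + 1)) (Fin (n + 1)) ℂ) (f : MvPolynomial (Fin (n + 1)) ℂ)
    (y : Fin (n + 1) → ℂ) : eval y (sb B f) = eval (B.mulVec y) f := by
  have h1 : (eval y).comp (sb B).toRingHom = eval (B.mulVec y) := by
    apply ringHom_ext
    · intro r
      simp [sb]
    · intro i
      simp only [RingHom.coe_comp, AlgHom.toRingHom_eq_coe, RingHom.coe_coe, Function.comp_apply,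
        sb_X, eval_X]
      rw [lf_apply, map_sum]
      simp only [map_mul, eval_C, eval_X]
      rfl
  exact RingHom.congr_fun h1 f

theorem pderiv_sb (B : Matrix (Fin (n + 1)) (Fin (n + 1)) ℂ) (f : MvPolynomial (Fin (n + 1)) ℂ)
    (j : Fin (n + 1)) : pderiv j (sb B f) = ∑ i, C (B i j) * sb B (pderiv i f) := by
  classical
  induction f using MvPolynomial.induction_on with
  | C a =>
    rw [algHom_C, algebraMap_eq, pderiv_C]
    symm
    refine Finset.sum_eq_zero fun i _ => ?_
    rw [pderiv_C, map_zero, mul_zero]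
  | add p q hp hq =>
    rw [map_add, map_add, hp, hq, ← Finset.sum_add_distrib]
    exact Finset.sum_congr rfl fun i _ => by rw [map_add, map_add, mul_add]
  | mul_X p k hp =>
    rw [map_mul, pderiv_mul, hp]
    have h1 : pderiv j (sb B (X k)) = C (B k j) := by
      rw [sb_X, lf_apply, map_sum, Finset.sum_eq_single j]
      · rw [pderiv_C_mul, pderiv_X_self, mul_one]
      · intro i _ hi
        rw [pderiv_C_mul, pderiv_X_of_ne hi, mul_zero]
      · intro h
        exact absurd (Finset.mem_univ _) h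
    have h2 : ∀ i, C (B i j) * sb B (pderiv i (p * X k)) =
        C (B i j) * sb B (pderiv i p) * sb B (X k) +
          (if i = k then sb B p * C (B k j) else 0) := by
      intro i
      rw [pderiv_mul, map_add, map_mul, map_mul]
      by_cases h : i = k
      · subst h
        rw [pderiv_X_self, map_one, if_pos rfl]
        ring
      · rw [pderiv_X_of_ne (Ne.symm h), map_zero, if_neg h]
        ring
    rw [h1, Finset.sum_congr rfl fun i _ => h2 i, Finset.sum_add_distrib, ← Finset.sum_mul,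
      Finset.sum_ite_eq', if_pos (Finset.mem_univ k)]

/-- critical points in other coordinates -/
theorem sg_sb {A B : Matrix (Fin (n + 1)) (Fin (n + 1)) ℂ} (hBA : B * A = 1)
    {f : MvPolynomial (Fin (n + 1)) ℂ} {y : Fin (n + 1) → ℂ} (h : Sg (sb B f) y) :
    Sg f (B.mulVec y) := by
  intro i
  have h1 : f = sb A (sb B f) := by
    rw [sb_sb, hBA, sb_one]
  have h2 : sb B (pderiv i f) = ∑ j, C (A j i) * pderiv j (sb B f) := by
    conv_lhs => rw [h1, pderiv_sb, map_sum]
    refine Finset.sum_congr rfl fun j _ => ?_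
    rw [map_mul, algHom_C, algebraMap_eq, sb_sb]
    have hAB : A * B = 1 := mul_eq_one_comm.1 hBA
    rw [hAB, sb_one]
  rw [← eval_sb, h2, map_sum]
  refine Finset.sum_eq_zero fun j _ => ?_
  rw [map_mul, h j, mul_zero]

/-- weighted homogeneous polynomials and the action of the torus -/
theorem eval_wh {m : ℕ} (a : Fin m → ℕ) (g : MvPolynomial (Fin m) ℂ) (e : ℕ)
    (hg : IsWeightedHomogeneous a g e) (y : Fin m → ℂ) (s : ℂ) :
    eval (fun i => s ^ a i * y i) g = s ^ e * eval y g := by
  rw [g.as_sum, map_sum, map_sum, Finset.mul_sum]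
  refine Finset.sum_congr rfl fun α hα => ?_
  have h1 := hg (mem_support_iff.1 hα)
  rw [Finsupp.weight_apply, Finsupp.sum_fintype _ _ (by simp)] at h1
  rw [eval_monomial, eval_monomial, Finsupp.prod_fintype _ _ (fun i => pow_zero _),
    Finsupp.prod_fintype _ _ (fun i => pow_zero _)]
  have h2 : ∏ i, (s ^ a i * y i) ^ α i = s ^ e * ∏ i, y i ^ α i := by
    rw [← h1, ← Finset.prod_pow_eq_pow_sum, ← Finset.prod_mul_distrib]
    refine Finset.prod_congr rfl fun i _ => ?_
    rw [mul_pow, ← pow_mul, smul_eq_mul, mul_comm (a i)]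
  rw [h2]
  ring

/-- weighted homogeneous germs -/
theorem wh_germAt (i : Fin (n + 1)) (a : Fin (n + 1) → ℕ) (hai : a i = 0)
    (g : MvPolynomial (Fin (n + 1)) ℂ) (e : ℕ) (hg : IsWeightedHomogeneous a g e) :
    IsWeightedHomogeneous (fun t => a (i.succAbove t)) (germAt i 0 g) e := by
  unfold germAt
  rw [g.as_sum, map_sum]
  refine IsWeightedHomogeneous.sum _ _ _ fun α hα => ?_
  have h1 := hg (mem_support_iff.1 hα)
  rw [Finsupp.weight_apply, Finsupp.sum_fintype _ _ (by simp)] at h1
  rw [aeval_monomial, Finsupp.prod_fintype _ _ (fun i => pow_zero _)]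
  have h2 : IsWeightedHomogeneous (fun t => a (i.succAbove t)) (∏ j, (i.insertNth 1 fun t =>
      X t + C ((0 : Fin n → ℂ) t) : Fin (n + 1) → MvPolynomial (Fin n) ℂ) j ^ α j)
      (∑ j, α j • a j) := by
    refine IsWeightedHomogeneous.prod _ _ _ fun j _ => ?_
    refine IsWeightedHomogeneous.pow ?_ _
    induction j using i.succAboveCases with
    | x =>
      rw [Fin.insertNth_apply_same, hai]
      exact isWeightedHomogeneous_one _ _
    | p t =>
      rw [Fin.insertNth_apply_succAbove, Pi.zero_apply, map_zero, add_zero]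
      exact isWeightedHomogeneous_X _ _ _
  have h3 := (isWeightedHomogeneous_C (fun t => a (i.succAbove t)) (coeff α g)).mul h2
  rw [zero_add, h1] at h3
  exact h3

/-- `SF` in other linear coordinates -/
theorem sf_sb {A B : Matrix (Fin (n + 1)) (Fin (n + 1)) ℂ} (hBA : B * A = 1)
    (f : MvPolynomial (Fin (n + 1)) ℂ) (hf0 : f ≠ 0) (α : ℂ)
    (h : SF (fun _ : Fin 1 => sb B f) 0 α) : SF (fun _ : Fin 1 => f) 0 α := by
  classical
  have hne : ∃ j : Fin 1, (fun _ : Fin 1 => sb B f) j ≠ 0 := by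
    refine ⟨0, fun h1 => hf0 ?_⟩
    have h2 := congrArg (sb A) h1
    rw [sb_sb, hBA, sb_one, map_zero] at h2
    exact h2
  have hAB : A * B = 1 := mul_eq_one_comm.1 hBA
  have hc : ∀ p : MvPolynomial (Fin (n + 1)) ℂ,
      aeval (fun t => ((lf (A t) : MvPolynomial (Fin (n + 1)) ℂ) :
        MvPowerSeries (Fin (n + 1)) ℂ)) p = ((sb A p : MvPolynomial (Fin (n + 1)) ℂ) :
          MvPowerSeries (Fin (n + 1)) ℂ) := by
    intro p
    have h1 : (aeval (fun t => ((lf (A t) : MvPolynomial (Fin (n + 1)) ℂ) :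
        MvPowerSeries (Fin (n + 1)) ℂ)) : MvPolynomial (Fin (n + 1)) ℂ →ₐ[ℂ] _) =
        (coeToMvPowerSeries.algHom (R := ℂ) ℂ).comp (sb A) := by
      apply algHom_ext
      intro i
      rw [aeval_X, AlgHom.comp_apply, sb_X, coeToMvPowerSeries.algHom_apply]
      simp only [Algebra.algebraMap_self, MvPowerSeries.map_id, RingHom.id_apply]
    rw [h1, AlgHom.comp_apply, coeToMvPowerSeries.algHom_apply]
    simp only [Algebra.algebraMap_self, MvPowerSeries.map_id, RingHom.id_apply]
  have hT : Transf (fun _ : Fin 1 => f) (fun _ : Fin 1 => sb B f) 0 := by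
    refine transfer_formal (fun _ : Fin 1 => f) (fun _ : Fin 1 => sb B f)
      (fun t => ((lf (A t) : MvPolynomial (Fin (n + 1)) ℂ) : MvPowerSeries (Fin (n + 1)) ℂ)) id
      (fun t => ?_) ?_ ?_
    · rw [← MvPowerSeries.coeff_zero_eq_constantCoeff_apply, MvPolynomial.coeff_coe]
      rw [lf_apply, coeff_sum]
      refine Finset.sum_eq_zero fun i _ => ?_
      rw [coeff_C_mul, coeff_zero_X, mul_zero]
    · have h1 : (Matrix.of fun u t => MvPowerSeries.coeff (Finsupp.single (id u) 1)
          ((lf (A t) : MvPolynomial (Fin (n + 1)) ℂ) : MvPowerSeries (Fin (n + 1)) ℂ)) =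
          A.transpose := by
        ext1 u t
        rw [Matrix.of_apply, MvPolynomial.coeff_coe, Matrix.transpose_apply, lf_apply, coeff_sum,
          Finset.sum_eq_single u]
        · rw [coeff_C_mul, id, coeff_X, if_pos rfl, mul_one]
        · intro j _ hj
          rw [coeff_C_mul, coeff_X, if_neg, mul_zero]
          intro h2
          exact hj (Finsupp.single_left_injective one_ne_zero h2)
        · intro h2
          exact absurd (Finset.mem_univ _) h2
      rw [h1, Matrix.det_transpose]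
      intro h2
      have h3 := congrArg Matrix.det hAB
      rw [Matrix.det_mul, h2, zero_mul, Matrix.det_one] at h3
      exact zero_ne_one h3
    · rw [Set.range_const, Set.range_const, hc, sb_sb, hBA, sb_one]
  exact sf_of_transf _ _ 0 hT hne _ ((sf_iff _ hne _).1 h)

end Pool.Agent.H940.F
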